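import Mathlib

set_option autoImplicit false

/-! # Sets with few points on arithmetic progressions inside a generalised progression -/

namespace Pool.Agent.Y56.LW

open Finset

open Classical in
/-- a set of integer vectors inside a box, which has at most `D L` points (as a real number `δ L`)
on every progression of length `L` with difference `w` equal to a difference of two
elements divided by `L`, has at most `L ^ k + 3 ^ k δ ∏ N i` elements. -/
theorem grid (k : ℕ) (N : Fin k → ℕ) (E : Finset (Fin k → ℤ))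
    (hbox : ∀ n ∈ E, ∀ i, 0 ≤ n i ∧ n i < N i) (L : ℕ) (hL : 1 ≤ L) (δ : ℝ) (hδ : 0 ≤ δ)
    (hline : ∀ n ∈ E, ∀ n' ∈ E, n ≠ n' → ∀ w : Fin k → ℤ, (∀ i, (L : ℤ) * w i = n i - n' i) →
      ∀ y : Fin k → ℤ,
        (((range L).filter (fun j : ℕ => (fun i => y i + (j : ℤ) * w i) ∈ E)).card : ℝ) ≤ δ * L) :
    (E.card : ℝ) ≤ (L : ℝ) ^ k + 3 ^ k * (∏ i, (N i : ℝ)) * δ := by
  have hprod0 : (0:ℝ) ≤ ∏ i, (N i : ℝ) := Finset.prod_nonneg (fun i _ => Nat.cast_nonneg _)
  by_cases hsmall : E.card ≤ L ^ k
  · have h1 : (E.card : ℝ) ≤ (L:ℝ) ^ k := by exact_mod_cast hsmall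
    have h2 : (0:ℝ) ≤ 3 ^ k * (∏ i, (N i : ℝ)) * δ := by positivity
    linarith
  push Not at hsmall
  have : NeZero L := ⟨by omega⟩
  have hLZ : (0:ℤ) < (L:ℤ) := by exact_mod_cast hL
  -- pigeonhole modulo `L`
  obtain ⟨n, hn, n', hn', hne, hcong⟩ := Finset.exists_ne_map_eq_of_card_lt_of_maps_to
    (s := E) (t := (Finset.univ : Finset (Fin k → ZMod L)))
    (f := fun n : Fin k → ℤ => (fun i => ((n i : ℤ) : ZMod L)))
    (by
      rw [Finset.card_univ, Fintype.card_fun, ZMod.card, Fintype.card_fin]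
      exact hsmall)
    (fun _ _ => Finset.mem_coe.2 (Finset.mem_univ _))
  have hdvd : ∀ i, (L : ℤ) ∣ n i - n' i := by
    intro i
    have h := congrFun hcong i
    have h2 : ((n' i : ℤ) : ZMod L) = ((n i : ℤ) : ZMod L) := h.symm
    exact (ZMod.intCast_eq_intCast_iff_dvd_sub _ _ L).1 h2
  choose w hw using hdvd
  have hline' := hline n hn n' hn' hne w (fun i => (hw i).symm)
  -- size of w
  have hwb : ∀ i, ∀ j : ℕ, j < L → |(j : ℤ) * w i| < N i ∨ N i = 0 := by
    intro i j hj
    by_cases h0 : N i = 0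
    · right; exact h0
    left
    have h1 := hbox n hn i
    have h2 := hbox n' hn' i
    have h3 : |n i - n' i| < N i := by
      rw [abs_lt]; constructor <;> linarith
    rw [hw i, abs_mul, abs_of_pos hLZ] at h3
    rw [abs_mul, abs_of_nonneg (by positivity : (0:ℤ) ≤ (j:ℤ))]
    have h4 : (j:ℤ) ≤ L := by exact_mod_cast hj.le
    calc (j:ℤ) * |w i| ≤ L * |w i| := by
          exact mul_le_mul_of_nonneg_right h4 (abs_nonneg _)
      _ < N i := h3
  set Y : Finset (Fin k → ℤ) :=
    Fintype.piFinset (fun i => Finset.Ioo (-(N i : ℤ)) (2 * N i)) with hY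
  have hYcard : (Y.card : ℝ) ≤ 3 ^ k * ∏ i, (N i : ℝ) := by
    rw [hY, Fintype.card_piFinset]
    push_cast
    have h3 : (3:ℝ) ^ k = ∏ _i : Fin k, (3:ℝ) := by simp
    rw [h3, ← Finset.prod_mul_distrib]
    apply Finset.prod_le_prod
    · intro i _; positivity
    · intro i _
      rw [Int.card_Ioo]
      have : (2 * (N i : ℤ) - -(N i : ℤ) - 1).toNat ≤ 3 * N i := by omega
      calc (((2 * (N i : ℤ) - -(N i : ℤ) - 1).toNat : ℕ) : ℝ) ≤ ((3 * N i : ℕ) : ℝ) := by
            exact_mod_cast this
        _ = 3 * (N i : ℝ) := by push_cast; ring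
  -- double counting
  set S : Finset ((Fin k → ℤ) × ℕ) := E ×ˢ range L with hS
  have hScard : (S.card : ℝ) = E.card * L := by
    rw [hS, Finset.card_product, Finset.card_range]; push_cast; ring
  have hmaps : ∀ p ∈ S, (fun i => p.1 i - (p.2 : ℤ) * w i) ∈ Y := by
    intro p hp
    rw [hS, Finset.mem_product, Finset.mem_range] at hp
    rw [hY, Fintype.mem_piFinset]
    intro i
    rw [Finset.mem_Ioo]
    have h1 := hbox p.1 hp.1 i
    rcases hwb i p.2 hp.2 with h2 | h2
    · rw [abs_lt] at h2
      constructor <;> linarith [h2.1, h2.2]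
    · exfalso
      rw [h2] at h1
      simp only [Nat.cast_zero] at h1
      linarith [h1.1, h1.2]
  have hcount : (S.card : ℝ) ≤ Y.card * (δ * L) := by
    have h1 : S.card = ∑ y ∈ Y, (S.filter
        (fun p => (fun i => p.1 i - (p.2 : ℤ) * w i) = y)).card :=
      Finset.card_eq_sum_card_fiberwise (f := fun p : (Fin k → ℤ) × ℕ =>
        (fun i => p.1 i - (p.2 : ℤ) * w i)) hmaps
    rw [h1]
    push_cast
    have h2 : ∀ y ∈ Y, ((S.filter
        (fun p => (fun i => p.1 i - (p.2 : ℤ) * w i) = y)).card : ℝ) ≤ δ * L := by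
      intro y _
      refine le_trans ?_ (hline' y)
      have h3 : (S.filter (fun p => (fun i => p.1 i - (p.2 : ℤ) * w i) = y)).card ≤
          ((range L).filter (fun j : ℕ => (fun i => y i + (j : ℤ) * w i) ∈ E)).card := by
        apply Finset.card_le_card_of_injOn (fun p => p.2)
        · intro p hp
          rw [Finset.mem_coe, Finset.mem_filter, hS, Finset.mem_product] at hp
          rw [Finset.mem_coe, Finset.mem_filter]
          refine ⟨hp.1.2, ?_⟩
          have : (fun i => y i + (p.2 : ℤ) * w i) = p.1 := by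
            funext i
            have := congrFun hp.2 i
            linarith
          rw [this]
          exact hp.1.1
        · intro p hp q hq hpq
          rw [Finset.mem_coe, Finset.mem_filter] at hp hq
          simp only at hpq
          have hp2 := hp.2
          have hq2 := hq.2
          apply Prod.ext
          · funext i
            have e1 := congrFun hp2 i
            have e2 := congrFun hq2 i
            rw [hpq] at e1
            linarith
          · exact hpq
      exact_mod_cast h3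
    calc ∑ y ∈ Y, ((S.filter
        (fun p => (fun i => p.1 i - (p.2 : ℤ) * w i) = y)).card : ℝ)
        ≤ ∑ _y ∈ Y, δ * L := Finset.sum_le_sum h2
      _ = Y.card * (δ * L) := by rw [Finset.sum_const, nsmul_eq_mul]
  rw [hScard] at hcount
  have hLr : (0:ℝ) < L := by exact_mod_cast hL
  have h5 : (E.card : ℝ) ≤ Y.card * δ := by
    have : (E.card : ℝ) * L ≤ (Y.card * δ) * L := by linarith
    exact le_of_mul_le_mul_right this hLr
  have h6 : (Y.card : ℝ) * δ ≤ 3 ^ k * (∏ i, (N i : ℝ)) * δ :=
    mul_le_mul_of_nonneg_right hYcard hδ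
  have h7 : (0:ℝ) ≤ (L:ℝ) ^ k := by positivity
  linarith

end Pool.Agent.Y56.LW
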