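import Mathlib
import Pool.Agent.Y56.LW.Main
import Pool.Agent.TH869.LPS.Res
import Pool.Agent.H217R3.AK.Bsg

set_option autoImplicit false

/-! # Littlewood's conjecture: exceptional sets and additive structure -/

namespace Pool.Agent.Y56.LW

open Finset Polynomial
open scoped Pointwise

open Pool.Agent.TH869.LPS (Gd)

/-- the rational span of `1` and `α` -/
def HS (α : ℝ) : Set ℝ := {θ | ∃ w : ℤ, w ≠ 0 ∧ ∃ u v : ℤ, (w:ℝ) * θ = u + v * α}

theorem HS_smul (α : ℝ) (L : ℕ) (x : ℝ) (hx : x ∈ HS α) : L • x ∈ HS α := by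
  obtain ⟨w, hw, u, v, h⟩ := hx
  refine ⟨w, hw, L * u, L * v, ?_⟩
  rw [nsmul_eq_mul]
  push_cast
  calc (w:ℝ) * (L * x) = L * (w * x) := by ring
    _ = L * (u + v * α) := by rw [h]
    _ = _ := by ring

theorem real_tf (n : ℕ) (x : ℝ) (hn : n ≠ 0) (h : n • x = 0) : x = 0 := by
  rw [nsmul_eq_mul, mul_eq_zero] at h
  rcases h with h | h
  · exact absurd (by exact_mod_cast h) hn
  · exact h

open Classical in
theorem ap : ∃ c C : ℝ, 0 < c ∧ c ≤ 1 ∧ 0 < C ∧ ∀ ε : ℝ, 0 < ε → ε ≤ 1/2 → ∀ α : ℝ,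
    ∀ x θ : ℝ, θ ∉ HS α → ∀ L : ℕ, 1 ≤ L →
      (((range L).filter (fun j : ℕ => x + j • θ ∈ {β : ℝ | ¬ ∀ γ : ℝ, Gd ε α β γ})).card : ℝ) ≤
        C / ε * L * (L:ℝ) ^ (-(c * ε / Real.log (1/ε))) := by
  obtain ⟨c, C, hc, hc1, hC, h⟩ := Pool.Agent.TH869.LPS.poly 1
  refine ⟨c, C, hc, hc1, hC, ?_⟩
  intro ε hε hε2 α x θ hθ L hL
  have h1 := h ε hε hε2 α (Polynomial.C θ * X + Polynomial.C x) Polynomial.natDegree_linear_le
    L L hL le_rfl (by
      intro b hb _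
      refine ⟨1, le_rfl, fun u v hcon => hθ ⟨b, by omega, u, v, ?_⟩⟩
      simp only [coeff_add, coeff_C_mul, coeff_X_one, mul_one, coeff_C_succ, add_zero] at hcon
      have : ((b:ℤ):ℝ) = (b:ℝ) := by norm_cast
      rw [this]
      simpa using hcon)
  refine le_trans ?_ h1
  have h2 : ((range L).filter (fun j : ℕ => x + j • θ ∈ {β : ℝ | ¬ ∀ γ : ℝ, Gd ε α β γ})).card ≤
      ((range L).filter (fun l : ℕ =>
        ¬ ∀ γ : ℝ, Gd ε α ((Polynomial.C θ * X + Polynomial.C x).eval (l:ℝ)) γ)).card := by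
    apply Finset.card_le_card
    intro j hj
    rw [Finset.mem_filter] at hj ⊢
    refine ⟨hj.1, ?_⟩
    have h3 : (Polynomial.C θ * X + Polynomial.C x).eval (j:ℝ) = x + j • θ := by
      simp only [eval_add, eval_mul, eval_C, eval_X, nsmul_eq_mul]
      ring
    rw [h3]
    exact hj.2
  exact_mod_cast h2

theorem conv_const {C₁ ε : ℝ} (hε : 0 < ε) (hε2 : ε ≤ 1/2) :
    1 + 2 * (C₁ / ε) ≤ (1 + 2 * C₁) / ε := by
  have h1 : 1 ≤ 1 / ε := by rw [le_div_iff₀ hε]; linarith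
  calc 1 + 2 * (C₁ / ε) ≤ 1 / ε + 2 * (C₁ / ε) := by linarith
    _ = _ := by ring

theorem div_log_le {c ε : ℝ} (hc : 0 < c) (hc1 : c ≤ 1) (hε : 0 < ε) (hε2 : ε ≤ 1/2) :
    0 < c * ε / Real.log (1/ε) ∧ c * ε / Real.log (1/ε) ≤ 1 := by
  have hlog := Pool.Agent.TH869.LPS.log_pos_of ε hε hε2
  have h0 : 0 < Real.log (1/ε) := by linarith
  refine ⟨by positivity, ?_⟩
  rw [div_le_one h0]
  nlinarith

open Classical in
/-- small doubling -/
theorem smd : ∃ c C : ℝ, 0 < c ∧ 0 < C ∧ ∀ ε : ℝ, 0 < ε → ε ≤ 1/2 → ∀ α : ℝ,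
    ∀ (K : ℝ) (A B : Finset ℝ), A.Nonempty → ((A + A).card : ℝ) ≤ K * A.card → B ⊆ A →
      (∀ β ∈ B, ¬ ∀ γ : ℝ, Gd ε α β γ) →
      (∀ b ∈ B, ∀ b' ∈ B, b ≠ b' → ∀ w u v : ℤ, w ≠ 0 → (w:ℝ) * (b - b') ≠ u + v * α) →
      1 ≤ K ∧ (B.card : ℝ) ≤ C / ε * (2 * K) ^ (C * (1 + Real.log (1 + Real.log (2 * K)))) *
        (A.card : ℝ) ^ (1 - c * ε / (Real.log (1/ε) * Real.log (2 * K))) := by
  obtain ⟨c, C, hc, hc1, hC, h⟩ := ap
  refine ⟨c / 604, 17500 + (1 + 2 * C), by positivity, by positivity, ?_⟩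
  intro ε hε hε2 α K A B hA hK hBA hBZ hBH
  have hlog := Pool.Agent.TH869.LPS.log_pos_of ε hε hε2
  obtain ⟨hd0, hd1⟩ := div_log_le hc hc1 hε hε2
  have hm := main real_tf (HS α) {β : ℝ | ¬ ∀ γ : ℝ, Gd ε α β γ} (HS_smul α) (C / ε)
    (c * ε / Real.log (1/ε)) (by positivity) hd0.le hd1
    (by
      intro x θ hθ L hL
      convert h ε hε hε2 α x θ hθ L hL) A B hA hK hBA
    hBZ (fun b hb b' hb' hne hcon => by
      obtain ⟨w, hw, u, v, h2⟩ := hcon
      exact hBH b hb b' hb' hne w u v hw h2)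
  have hAr : (1:ℝ) ≤ A.card := by exact_mod_cast hA.card_pos
  have hK1 : 1 ≤ K := by
    have h1 : (A.card : ℝ) ≤ (A + A).card := by
      exact_mod_cast Finset.card_le_card_add_left hA
    have h2 : 1 * (A.card : ℝ) ≤ K * A.card := by linarith
    exact le_of_mul_le_mul_right h2 (by linarith)
  refine ⟨hK1, ?_⟩
  have hK2 : (2:ℝ) ≤ 2 * K := by linarith
  have hκ2 : Real.log 2 ≤ Real.log (2 * K) := Real.log_le_log (by norm_num) hK2
  have hl2 := Real.log_two_gt_d9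
  set κ := Real.log (2 * K) with hκ
  have hκ0 : (0:ℝ) < κ := by linarith
  have hlogκ : 0 ≤ Real.log (1 + κ) := Real.log_nonneg (by linarith)
  have hexp : c * ε / Real.log (1/ε) / (604 * κ) = c / 604 * ε / (Real.log (1/ε) * κ) := by
    field_simp
  rw [hexp] at hm
  have h1 := conv_const (C₁ := C) hε hε2
  refine hm.trans ?_
  have h2 : 1 + 2 * (C / ε) ≤ (17500 + (1 + 2 * C)) / ε := by
    refine h1.trans ?_
    exact div_le_div_of_nonneg_right (by linarith) hε.le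
  have h3 : (2 * K) ^ (17500 * (1 + Real.log (1 + κ))) ≤
      (2 * K) ^ ((17500 + (1 + 2 * C)) * (1 + Real.log (1 + κ))) := by
    apply Real.rpow_le_rpow_of_exponent_le (by linarith)
    nlinarith
  gcongr

open Classical in
/-- dilations -/
theorem dilm (c C : ℝ) (hC : 0 < C)
    (h : ∀ ε : ℝ, 0 < ε → ε ≤ 1/2 → ∀ α : ℝ,
    ∀ (K : ℝ) (A B : Finset ℝ), A.Nonempty → ((A + A).card : ℝ) ≤ K * A.card → B ⊆ A →
      (∀ β ∈ B, ¬ ∀ γ : ℝ, Gd ε α β γ) →
      (∀ b ∈ B, ∀ b' ∈ B, b ≠ b' → ∀ w u v : ℤ, w ≠ 0 → (w:ℝ) * (b - b') ≠ u + v * α) →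
      1 ≤ K ∧ (B.card : ℝ) ≤ C / ε * (2 * K) ^ (C * (1 + Real.log (1 + Real.log (2 * K)))) *
        (A.card : ℝ) ^ (1 - c * ε / (Real.log (1/ε) * Real.log (2 * K))))
    (ε : ℝ) (hε : 0 < ε) (hε2 : ε ≤ 1/2) (α K : ℝ) (M : Finset ℤ) (hM : M.Nonempty)
    (hK : ((M + M).card : ℝ) ≤ K * M.card) (β : ℝ) :
    ((M.filter (fun m : ℤ => ¬ Gd ε α ((m:ℝ) * β) 0)).card : ℝ) ≤
      C / ε * (2 * K) ^ (C * (1 + Real.log (1 + Real.log (2 * K)))) *
        (M.card : ℝ) ^ (1 - c * ε / (Real.log (1/ε) * Real.log (2 * K))) := by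
  have hMr : (1:ℝ) ≤ M.card := by exact_mod_cast hM.card_pos
  have hK1 : 1 ≤ K := by
    have h1 : (M.card : ℝ) ≤ (M + M).card := by
      exact_mod_cast Finset.card_le_card_add_left hM
    have h2 : 1 * (M.card : ℝ) ≤ K * M.card := by linarith
    exact le_of_mul_le_mul_right h2 (by linarith)
  by_cases hβ : β ∈ HS α
  · obtain ⟨w, hw, u, v, hrel⟩ := hβ
    have h0 : M.filter (fun m : ℤ => ¬ Gd ε α ((m:ℝ) * β) 0) = ∅ := by
      rw [Finset.filter_eq_empty_iff]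
      intro m _ hcon
      exact hcon (Pool.Agent.TH869.LPS.gd_of_relation hε w v u hw (by rw [hrel]; ring) m)
    rw [h0]
    simp only [Finset.card_empty, Nat.cast_zero]
    have : (0:ℝ) ≤ 2 * K := by linarith
    positivity
  · have hβ0 : β ≠ 0 := by
      rintro rfl
      exact hβ ⟨1, one_ne_zero, 0, 0, by simp⟩
    have hinj : Function.Injective (fun m : ℤ => (m:ℝ) * β) := by
      intro a b hab
      have := mul_right_cancel₀ hβ0 hab
      exact_mod_cast this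
    set f : ℤ → ℝ := fun m : ℤ => (m:ℝ) * β with hf
    have hadd : M.image f + M.image f = (M + M).image f := by
      ext x
      simp only [Finset.mem_add, Finset.mem_image]
      constructor
      · rintro ⟨_, ⟨a, ha, rfl⟩, _, ⟨b, hb, rfl⟩, rfl⟩
        exact ⟨a + b, ⟨a, ha, b, hb, rfl⟩, by simp only [hf]; push_cast; ring⟩
      · rintro ⟨_, ⟨a, ha, b, hb, rfl⟩, rfl⟩
        exact ⟨_, ⟨a, ha, rfl⟩, _, ⟨b, hb, rfl⟩, by simp only [hf]; push_cast; ring⟩
    have hc1 : (M.image f).card = M.card := Finset.card_image_of_injective _ hinj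
    have hc2 : (M.image f + M.image f).card = (M + M).card := by
      rw [hadd]; exact Finset.card_image_of_injective _ hinj
    have hc3 : ((M.filter (fun m : ℤ => ¬ Gd ε α ((m:ℝ) * β) 0)).image f).card =
        (M.filter (fun m : ℤ => ¬ Gd ε α ((m:ℝ) * β) 0)).card :=
      Finset.card_image_of_injective _ hinj
    have h1 := (h ε hε hε2 α K (M.image f)
      ((M.filter (fun m : ℤ => ¬ Gd ε α ((m:ℝ) * β) 0)).image f) (hM.image f)
      (by rw [hc1, hc2]; exact hK) (Finset.image_subset_image (Finset.filter_subset _ _))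
      (by
        intro x hx
        obtain ⟨m, hm, rfl⟩ := Finset.mem_image.1 hx
        intro hall
        exact (Finset.mem_filter.1 hm).2 (hall 0))
      (by
        intro x hx x' hx' hne w u v hw hrel
        obtain ⟨m, hm, rfl⟩ := Finset.mem_image.1 hx
        obtain ⟨m', hm', rfl⟩ := Finset.mem_image.1 hx'
        apply hβ
        refine ⟨w * (m - m'), mul_ne_zero hw (sub_ne_zero.2 (fun h => hne (by rw [h]))), u, v, ?_⟩
        rw [← hrel]
        simp only [hf]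
        push_cast
        ring)).2
    rw [hc3, hc1] at h1
    exact h1

/-- numerical part of the energy estimate -/
theorem num_energy (c C : ℝ) (hc : 0 < c) (hC : 0 < C) : ∃ F : ℝ, 0 < F ∧
    ∀ (ε lε κ LB x : ℝ), 0 < ε → ε ≤ 1/2 → 1/2 < lε → Real.log (1/ε) = lε → 1/2 ≤ κ →
      (∃ lam : ℝ, 1/2 ≤ lam ∧ lam ≤ 45 * κ ∧ x * (c * ε / (lε * lam)) ≤
        Real.log (C / ε) + lam * (C * (1 + Real.log (1 + lam)))) →
      LB ≤ 3 * κ + x →
      LB ≤ F / ε * lε ^ 2 * κ ^ 2 * (1 + Real.log (1 + κ)) := by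
  refine ⟨24 + 2 * (45 / c) * (2 * (2 * |Real.log C| + 1) + C * 45 * 6), by positivity, ?_⟩
  intro ε lε κ LB x hε hε2 hlε hlog hκ ⟨lam, hlam0, hlam, hx⟩ hLB
  have hi2 : 2 ≤ 1 / ε := by rw [le_div_iff₀ hε]; linarith
  set i := 1 / ε with hi
  have hlκ : 0 ≤ Real.log (1 + κ) := Real.log_nonneg (by linarith)
  set M := 1 + Real.log (1 + κ) with hM
  have hM1 : 1 ≤ M := by linarith
  have hlC : Real.log (C / ε) ≤ (2 * |Real.log C| + 1) * lε := by
    rw [Real.log_div hC.ne' hε.ne']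
    have h1 : Real.log (1/ε) = - Real.log ε := by rw [one_div, Real.log_inv]
    have h2 : Real.log C ≤ |Real.log C| := le_abs_self _
    have h3 : 0 ≤ |Real.log C| := abs_nonneg _
    rw [hlog] at h1
    nlinarith
  have hlam1 : Real.log (1 + lam) ≤ 5 + Real.log (1 + κ) := by
    have h1 : 1 + lam ≤ 45 * (1 + κ) := by linarith
    have h2 : Real.log (1 + lam) ≤ Real.log (45 * (1 + κ)) :=
      Real.log_le_log (by linarith) h1
    rw [Real.log_mul (by norm_num) (by linarith)] at h2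
    have h3 : Real.log 45 ≤ 5 := by
      rw [Real.log_le_iff_le_exp (by norm_num)]
      have h5 : (2.7:ℝ) ^ (5:ℕ) ≤ Real.exp 1 ^ (5:ℕ) := by
        have := Real.exp_one_gt_d9
        gcongr
        linarith
      rw [← Real.exp_nat_mul] at h5
      norm_num at h5 ⊢
      linarith
    linarith
  have hlam2 : 1 + Real.log (1 + lam) ≤ 6 * M := by
    rw [hM]; linarith
  have hrhs : Real.log (C / ε) + lam * (C * (1 + Real.log (1 + lam))) ≤
      (2 * (2 * |Real.log C| + 1) + C * 45 * 6) * (2 * lε) * κ * M := by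
    have hκ0 : 0 < κ := by linarith
    have h1 : (2 * |Real.log C| + 1) * lε ≤ 2 * (2 * |Real.log C| + 1) * (2 * lε) * κ * M := by
      have h0 : 0 ≤ (2 * |Real.log C| + 1) * lε := by positivity
      have h2 : 1 ≤ 4 * κ * M := by nlinarith
      calc (2 * |Real.log C| + 1) * lε ≤ (2 * |Real.log C| + 1) * lε * (4 * κ * M) :=
            le_mul_of_one_le_right h0 h2
        _ = _ := by ring
    have h3 : lam * (C * (1 + Real.log (1 + lam))) ≤ C * 45 * 6 * (2 * lε) * κ * M := by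
      have h7 : 0 ≤ Real.log (1 + lam) := Real.log_nonneg (by linarith)
      calc lam * (C * (1 + Real.log (1 + lam))) ≤ (45 * κ) * (C * (6 * M)) := by
            apply mul_le_mul hlam _ (by positivity) (by positivity)
            exact mul_le_mul_of_nonneg_left hlam2 hC.le
        _ = C * 45 * 6 * 1 * κ * M := by ring
        _ ≤ C * 45 * 6 * (2 * lε) * κ * M := by
            gcongr
            linarith
    have h4 : 0 ≤ |Real.log C| := abs_nonneg _
    calc _ ≤ (2 * |Real.log C| + 1) * lε + C * 45 * 6 * (2 * lε) * κ * M := by linarith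
      _ ≤ _ := by
        rw [show (2 * (2 * |Real.log C| + 1) + C * 45 * 6) * (2 * lε) * κ * M =
          2 * (2 * |Real.log C| + 1) * (2 * lε) * κ * M + C * 45 * 6 * (2 * lε) * κ * M by ring]
        linarith
  have hκ0 : 0 < κ := by linarith
  have hlε0 : 0 < lε := by linarith
  have hlam00 : 0 < lam := by linarith
  have hx2 : x ≤ (lε * lam / (c * ε)) * ((2 * (2 * |Real.log C| + 1) + C * 45 * 6) *
      (2 * lε) * κ * M) := by
    have h1 := hx.trans hrhs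
    have h2 : x = (x * (c * ε / (lε * lam))) * (lε * lam / (c * ε)) := by
      field_simp
    rw [h2]
    calc _ ≤ ((2 * (2 * |Real.log C| + 1) + C * 45 * 6) * (2 * lε) * κ * M) *
        (lε * lam / (c * ε)) := by gcongr
      _ = _ := by ring
  have hx3 : x ≤ 2 * (45 / c) * (2 * (2 * |Real.log C| + 1) + C * 45 * 6) * i * lε ^ 2 *
      κ ^ 2 * M := by
    refine hx2.trans ?_
    calc (lε * lam / (c * ε)) * ((2 * (2 * |Real.log C| + 1) + C * 45 * 6) *
      (2 * lε) * κ * M) ≤ (lε * (45 * κ) / (c * ε)) * ((2 * (2 * |Real.log C| + 1) + C * 45 * 6) *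
      (2 * lε) * κ * M) := by gcongr
      _ = _ := by rw [hi]; field_simp
  have h3κ : 3 * κ ≤ 24 * i * lε ^ 2 * κ ^ 2 * M := by
    have h1 : (1/2:ℝ) ^ 2 ≤ lε ^ 2 := by gcongr
    calc 3 * κ = 24 * 2 * (1/2) ^ 2 * (κ * (1/2)) * 1 * (1/2) := by ring
      _ ≤ 24 * i * lε ^ 2 * (κ * κ) * M * 1 := by
          gcongr
          norm_num
      _ = _ := by ring
  calc LB ≤ 3 * κ + x := hLB
    _ ≤ 24 * i * lε ^ 2 * κ ^ 2 * M + 2 * (45 / c) *
        (2 * (2 * |Real.log C| + 1) + C * 45 * 6) * i * lε ^ 2 * κ ^ 2 * M := by linarith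
    _ = _ := by rw [hi]; ring

theorem energy_le (B : Finset ℝ) : B.addEnergy B ≤ B.card ^ 3 := by
  have h1 : B.addEnergy B ≤ ((B ×ˢ B) ×ˢ B).card := by
    unfold Finset.addEnergy
    apply Finset.card_le_card_of_injOn (fun x => (x.1, x.2.1))
    · intro x hx
      simp only [Finset.coe_filter, Finset.mem_product, Set.mem_setOf_eq] at hx
      simp only [Finset.coe_product, Set.mem_prod, Finset.mem_coe]
      exact ⟨hx.1.1, hx.1.2.1⟩
    · intro x hx y hy hxy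
      simp only [Finset.coe_filter, Finset.mem_product, Set.mem_setOf_eq] at hx hy
      simp only [Prod.mk.injEq] at hxy
      obtain ⟨h1, h2⟩ := hxy
      have h3 := hx.2
      have h4 := hy.2
      rw [h1, h2] at h3
      have h5 : x.2.2 = y.2.2 := by linarith
      exact Prod.ext h1 (Prod.ext h2 h5)
  rw [Finset.card_product, Finset.card_product] at h1
  calc _ ≤ _ := h1
    _ = _ := by ring

open Classical in
/-- additive energy -/
theorem energy (c C : ℝ) (hc : 0 < c) (hC : 0 < C)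
    (h : ∀ ε : ℝ, 0 < ε → ε ≤ 1/2 → ∀ α : ℝ,
    ∀ (K : ℝ) (A B : Finset ℝ), A.Nonempty → ((A + A).card : ℝ) ≤ K * A.card → B ⊆ A →
      (∀ β ∈ B, ¬ ∀ γ : ℝ, Gd ε α β γ) →
      (∀ b ∈ B, ∀ b' ∈ B, b ≠ b' → ∀ w u v : ℤ, w ≠ 0 → (w:ℝ) * (b - b') ≠ u + v * α) →
      1 ≤ K ∧ (B.card : ℝ) ≤ C / ε * (2 * K) ^ (C * (1 + Real.log (1 + Real.log (2 * K)))) *
        (A.card : ℝ) ^ (1 - c * ε / (Real.log (1/ε) * Real.log (2 * K)))) :
    ∃ F : ℝ, 0 < F ∧ ∀ ε : ℝ, 0 < ε → ε ≤ 1/2 → ∀ (α : ℝ) (B : Finset ℝ), B.Nonempty →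
      (∀ β ∈ B, ¬ ∀ γ : ℝ, Gd ε α β γ) →
      (∀ b ∈ B, ∀ b' ∈ B, b ≠ b' → ∀ w u v : ℤ, w ≠ 0 → (w:ℝ) * (b - b') ≠ u + v * α) →
      ∀ κ : ℝ, κ = Real.log (2 * ((B.card:ℝ) ^ 3 / (B.addEnergy B : ℕ))) →
      Real.log B.card ≤ F / ε * Real.log (1/ε) ^ 2 * κ ^ 2 * (1 + Real.log (1 + κ)) := by
  obtain ⟨F, hF, hnum⟩ := num_energy c C hc hC
  refine ⟨F, hF, ?_⟩
  intro ε hε hε2 α B hB hBZ hBH κ hκ
  have hlog := Pool.Agent.TH869.LPS.log_pos_of ε hε hε2
  have hBr : (1:ℝ) ≤ B.card := by exact_mod_cast hB.card_pos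
  have hE1 : (B.addEnergy B : ℕ) ≤ B.card ^ 3 := by
    exact energy_le B
  have hE0 : 0 < B.addEnergy B := Finset.addEnergy_pos hB hB
  have hE0r : (0:ℝ) < (B.addEnergy B : ℕ) := by exact_mod_cast hE0
  have hE1r : ((B.addEnergy B : ℕ) : ℝ) ≤ (B.card : ℝ) ^ 3 := by exact_mod_cast hE1
  set K₀ : ℝ := (B.card:ℝ) ^ 3 / (B.addEnergy B : ℕ) with hK₀
  have hK₀1 : 1 ≤ K₀ := by
    rw [hK₀, le_div_iff₀ hE0r]; linarith
  obtain ⟨B', hB'B, hB'ne, hcard, hdiff⟩ := Pool.Agent.H217R3.AK.bsg B hB K₀ (by linarith)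
    (by rw [hK₀]; field_simp; exact le_rfl)
  have hB'r : (1:ℝ) ≤ B'.card := by exact_mod_cast hB'ne.card_pos
  have hdiff2 : ((B' + B').card : ℝ) ≤ (2 ^ 44 * K₀ ^ 20) * B'.card := by
    have h1 := Finset.pluennecke_ruzsa_inequality_nsmul_sub hB'ne B' 2
    rw [two_nsmul] at h1
    have h2 : ((B' + B').card : ℝ) ≤ ((B' - B').card / B'.card : ℝ) ^ 2 * B'.card := by
      have h3 : (((B' + B').card : ℚ≥0) : ℝ) ≤
          ((((B' - B').card / B'.card : ℚ≥0) ^ 2 * B'.card : ℚ≥0) : ℝ) := by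
        exact_mod_cast h1
      push_cast at h3
      exact h3
    refine h2.trans ?_
    have h4 : ((B' - B').card / B'.card : ℝ) ≤ 2 ^ 22 * K₀ ^ 10 := by
      rw [div_le_iff₀ (by linarith)]; exact hdiff
    calc ((B' - B').card / B'.card : ℝ) ^ 2 * B'.card ≤ (2 ^ 22 * K₀ ^ 10) ^ 2 * B'.card := by
          gcongr
      _ = _ := by ring
  set K := 2 ^ 44 * K₀ ^ 20 with hK
  obtain ⟨hK1, hmain⟩ := h ε hε hε2 α K B' B' hB'ne hdiff2 (Finset.Subset.refl _)
    (fun b hb => hBZ b (hB'B hb)) (fun b hb b' hb' => hBH b (hB'B hb) b' (hB'B hb'))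
  have hl2 := Real.log_two_gt_d9
  have hlK0 : 0 ≤ Real.log K₀ := Real.log_nonneg hK₀1
  have hκ2 : κ = Real.log 2 + Real.log K₀ := by
    rw [hκ, Real.log_mul (by norm_num) (by linarith)]
  have hlam : Real.log (2 * K) = 45 * Real.log 2 + 20 * Real.log K₀ := by
    rw [hK, ← mul_assoc, Real.log_mul (by norm_num) (by positivity), Real.log_pow,
      show (2:ℝ) * 2 ^ 44 = 2 ^ 45 by norm_num, Real.log_pow]
    norm_num
  set lam := Real.log (2 * K) with hlamdef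
  have hlam0 : 1/2 ≤ lam := by linarith
  have hlam1 : lam ≤ 45 * κ := by linarith
  have hlamp : 0 < lam := by linarith
  have hlε0 : 0 < Real.log (1/ε) := by linarith
  apply hnum ε (Real.log (1/ε)) κ (Real.log B.card) (Real.log B'.card) hε hε2 hlog rfl
    (by linarith) ⟨lam, hlam0, hlam1, ?_⟩ ?_
  · have hp : (0:ℝ) < (2 * K) ^ (C * (1 + Real.log (1 + lam))) := by
      apply Real.rpow_pos_of_pos; linarith
    have hCε : 0 < C / ε := by positivity
    have hB'0 : (0:ℝ) < B'.card := by linarith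
    have hq : (0:ℝ) < (B'.card:ℝ) ^ (1 - c * ε / (Real.log (1/ε) * lam)) :=
      Real.rpow_pos_of_pos hB'0 _
    have h1 := Real.log_le_log hB'0 hmain
    rw [Real.log_mul (by positivity) hq.ne', Real.log_mul hCε.ne' hp.ne',
      Real.log_rpow (by linarith), Real.log_rpow hB'0, ← hlamdef] at h1
    linarith
  · have h1 : Real.log B.card ≤ Real.log (8 * K₀ * B'.card) :=
      Real.log_le_log (by linarith) hcard
    rw [Real.log_mul (by positivity) (by positivity), Real.log_mul (by norm_num) (by linarith),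
      show (8:ℝ) = 2 ^ 3 by norm_num, Real.log_pow] at h1
    push_cast at h1
    linarith

end Pool.Agent.Y56.LW
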